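import Pool.Agent.K35c.SG.Prim

set_option autoImplicit false

/-!
# Two idempotents of a maximal J-class that are neither R- nor L-related: primitive elements
-/

namespace Pool.Agent.K35c.SG

open Pool.Agent.R636.FL Pool.Agent.Y396.Frankl

theorem strong_of_pair {S : Type*} [Semigroup S] [Finite S] {x y : S} (M : Subsemigroup S)
    (hx : Prim x) (hy : Prim y) (hxM : x ∉ M) (hyM : y ∉ M)
    (hrec : ∀ H K : Subsemigroup S, x ∈ H → y ∈ H → x ∈ K → y ∈ K → H ⊓ M ≤ K → H ≤ K)
    (hex : ∃ K : Subsemigroup S, x ∉ K ∧ y ∉ K ∧ ∀ H : Subsemigroup S, x ∈ H → y ∈ H → H ⊓ M ≠ K) :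
    Strong (Subsemigroup S) := by
  have hfin : Finite (Subsemigroup S) := Finite.of_injective
    (fun H : Subsemigroup S => (H : Set S)) SetLike.coe_injective
  have key := crit_card_lt (𝓗 := Subsemigroup S) (fun H => x ∈ H) (fun H => y ∈ H)
    (fun H => H ⊓ M) ?_ ?_ ?_
  · rcases key with h | h
    · refine ⟨Subsemigroup.closure {x}, hx.supIrred, ?_⟩
      simp only [Subsemigroup.closure_singleton_le_iff_mem]
      exact h
    · refine ⟨Subsemigroup.closure {y}, hy.supIrred, ?_⟩
      simp only [Subsemigroup.closure_singleton_le_iff_mem]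
      exact h
  · intro H K hxH hyH hxK hyK h
    have h' : H ⊓ M = K ⊓ M := h
    exact le_antisymm (hrec H K hxH hyH hxK hyK (by rw [h']; exact inf_le_left))
      (hrec K H hxK hyK hxH hyH (by rw [← h']; exact inf_le_left))
  · intro H _ _
    exact ⟨fun h => hxM h.2, fun h => hyM h.2⟩
  · obtain ⟨K, h1, h2, h3⟩ := hex
    exact ⟨K, h1, h2, h3⟩

variable {S : Type*} [Semigroup S] [Finite S] {c : S} (hc : IsMax' c)

include hc

theorem caseC_pair {e x y : S} (hee : e * e = e) (he : Below c e) (hx : Prim x) (hy : Prim y)
    (hex : e * x = x) (hxT : Below c x) (hye : y * e = y) (hyT : Below c y)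
    (hxne : x ≠ e) (hyne : y ≠ e)
    (hrec : ∀ H : Subsemigroup S, x ∈ H → y ∈ H →
      ∃ x2 ∈ Subsemigroup.closure {x, y}, ∃ y2 ∈ Subsemigroup.closure {x, y},
        x2 * y2 = e ∧ x2 * e ≠ x2 ∧ e * y2 ≠ y2) :
    Strong (Subsemigroup S) := by
  refine strong_of_pair (offCross hc he) hx hy (fun h => h.1 ⟨hex, hxT⟩) (fun h => h.2 ⟨hye, hyT⟩)
    ?_ ?_
  · intro H K hxH hyH hxK hyK hHK
    obtain ⟨x2, hx2, y2, hy2, h1, h2, h3⟩ := hrec H hxH hyH
    have hle : ∀ L : Subsemigroup S, x ∈ L → y ∈ L → Subsemigroup.closure {x, y} ≤ L := by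
      intro L hxL hyL
      rw [Subsemigroup.closure_le]
      rintro z (rfl | rfl)
      · exact hxL
      · exact hyL
    exact recover hc he h1 h2 h3 (hle H hxH hyH hx2) (hle H hxH hyH hy2) (hle K hxK hyK hx2)
      (hle K hxK hyK hy2) hHK
  · refine ⟨⟨{e}, ?_⟩, fun h => hxne h, fun h => hyne h, ?_⟩
    · rintro a b ha hb
      rw [Set.mem_singleton_iff] at *
      rw [ha, hb, hee]
    · intro H _ _ h
      have h3 : e ∈ H ⊓ offCross hc he := by
        rw [h]; exact rfl
      exact h3.2.1 ⟨hee, he⟩

/-- the product of two elements of the group of the idempotent `e` is in it -/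
theorem hcls_mul {e z z' : S} (he : Below c e) (h1 : z * e = z) (h1' : Below c z)
    (h2 : e * z' = z') (h2' : Below c z') : Below c (z * z') := by
  obtain ⟨w, hw⟩ := rstab hc (a := e) (b := z') he (by rw [h2]; exact h2')
  obtain ⟨w', hw'⟩ := lstab hc (a := z) (b := e) he (by rw [h1]; exact h1')
  have h3 : (e : WithOne S) = z' * w := by
    calc (e : WithOne S) = e * z' * w := hw
      _ = z' * w := by rw [← WithOne.coe_mul, h2]
  refine he.trans ⟨w', w, ?_⟩
  rw [WithOne.coe_mul]
  calc (e : WithOne S) = w' * (z * e) := hw'
    _ = w' * (z * (z' * w)) := by rw [← h3]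
    _ = w' * (z * z') * w := by simp only [mul_assoc]

theorem caseC' {e f : S} (hee : e * e = e) (he : Below c e) (hff : f * f = f) (hf : Below c f)
    (h1 : f * e ≠ f) (h2 : e * f ≠ f) : Strong (Subsemigroup S) := by
  -- the two idempotents in the two other corners, if they exist
  have hL : ∀ x : S, Below c x → e * x = x → x * f = x →
      (¬ ∃ g, g * g = g ∧ Below c g ∧ e * g = g ∧ g * f = g) → Prim x := by
    intro x hxT hex hxf hno
    rcases prim_or_idem x with h | ⟨u, hu, huu, hxu, hux⟩
    · exact h
    · exfalso
      apply hno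
      have h3 : ∀ y ∈ Subsemigroup.closure {x}, e * y = y ∧ y * f = y := by
        intro y hy
        induction hy using Subsemigroup.closure_induction with
        | mem y hy => rw [Set.mem_singleton_iff.1 hy]; exact ⟨hex, hxf⟩
        | mul y z _ _ hy hz =>
          exact ⟨by rw [← mul_assoc, hy.1], by rw [mul_assoc, hz.2]⟩
      refine ⟨u, huu, ?_, (h3 u hu).1, (h3 u hu).2⟩
      have : Below c (x * u) := by rw [hxu]; exact hxT
      exact top_right this
  have hR : ∀ y : S, Below c y → f * y = y → y * e = y →
      (¬ ∃ h, h * h = h ∧ Below c h ∧ f * h = h ∧ h * e = h) → Prim y := by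
    intro y hyT hfy hye hno
    rcases prim_or_idem y with h | ⟨u, hu, huu, hyu, huy⟩
    · exact h
    · exfalso
      apply hno
      have h3 : ∀ z ∈ Subsemigroup.closure {y}, f * z = z ∧ z * e = z := by
        intro z hz
        induction hz using Subsemigroup.closure_induction with
        | mem z hz => rw [Set.mem_singleton_iff.1 hz]; exact ⟨hfy, hye⟩
        | mul z z' _ _ hz hz' =>
          exact ⟨by rw [← mul_assoc, hz.1], by rw [mul_assoc, hz'.2]⟩
      refine ⟨u, huu, ?_, (h3 u hu).1, (h3 u hu).2⟩
      have : Below c (y * u) := by rw [hyu]; exact hyT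
      exact top_right this
  by_cases hG1 : ∃ g, g * g = g ∧ Below c g ∧ e * g = g ∧ g * f = g
  · obtain ⟨g, hgg, hgT, heg, hgf⟩ := hG1
    have hge : g * e = e := symR hc he hgg hgT heg
    have hfg : f * g = f := symL hc hf hgg hgT hgf
    have hgne : g ≠ e := by
      rintro rfl
      exact h1 hfg
    by_cases hG2 : ∃ h, h * h = h ∧ Below c h ∧ f * h = h ∧ h * e = h
    · -- both corners contain idempotents
      obtain ⟨h, hhh, hhT, hfh, hhe⟩ := hG2
      have hhf : h * f = f := symR hc hf hhh hhT hfh
      have heh : e * h = e := symL hc he hhh hhT hhe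
      have hhne : h ≠ e := by
        rintro rfl
        exact h2 hhf
      have htT : Below c (g * h) := by
        have h5 : Below c (f * (g * h) * f) := by
          have : f * (g * h) * f = f := by
            calc f * (g * h) * f = (f * g) * (h * f) := by simp only [mul_assoc]
              _ = f := by rw [hfg, hhf, hff]
          rw [this]; exact hf
        exact top_right (top_left h5)
      refine caseC_pair hc hee he (prim_idem hgg) (prim_idem hhh) heg hgT hhe hhT hgne hhne ?_
      intro H _ _
      have h6 : ∀ z ∈ Subsemigroup.closure {g * h}, (Below c z ∧ e * z = z ∧ z * e = z) ∧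
          ∃ w ∈ Subsemigroup.closure {g, h}, z = g * w ∧ (w = h ∨ ∃ v, w = h * v) := by
        intro z hz
        induction hz using Subsemigroup.closure_induction with
        | mem z hz =>
          rw [Set.mem_singleton_iff.1 hz]
          exact ⟨⟨htT, by rw [← mul_assoc, heg], by rw [mul_assoc, hhe]⟩,
            h, Subsemigroup.subset_closure (by simp), rfl, Or.inl rfl⟩
        | mul z z' hz0 hz0' hz hz' =>
          obtain ⟨⟨a1, a2, a3⟩, w, hw, hzw, hw'⟩ := hz
          obtain ⟨⟨b1, b2, b3⟩, w2, hw2, hzw2, hw2'⟩ := hz'
          refine ⟨⟨hcls_mul hc he a3 a1 b2 b1, by rw [← mul_assoc, a2], by rw [mul_assoc, b3]⟩,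
            w * z', ?_, by rw [hzw, mul_assoc], ?_⟩
          · refine mul_mem hw ?_
            rw [hzw2]
            exact mul_mem (Subsemigroup.subset_closure (by simp)) hw2
          · rcases hw' with rfl | ⟨v, rfl⟩
            · exact Or.inr ⟨z', rfl⟩
            · exact Or.inr ⟨v * z', by rw [mul_assoc]⟩
      obtain ⟨u, hu, huu⟩ := exists_idem_mem (K := Subsemigroup.closure {g * h}) (self_mem (g * h))
      obtain ⟨⟨u1, u2, u3⟩, w, hw, huw, hw'⟩ := h6 u hu
      have hue : u = e := by rw [← u3]; exact symR hc he huu u1 u2
      refine ⟨g, Subsemigroup.subset_closure (by simp), w, hw, by rw [← huw, hue], ?_, ?_⟩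
      · rw [hge]; exact fun h => hgne h.symm
      · intro h7
        have hwT : Below c w := by
          have : Below c (g * w) := by rw [← huw]; exact u1
          exact top_right this
        have h8 : e * h = h := by
          rcases hw' with rfl | ⟨v, rfl⟩
          · exact h7
          · exact PR hc h7 hwT
        exact hhne (by rw [← h8, heh])
    · -- only one corner contains an idempotent
      have hxy : g * (f * e) = e := by rw [← mul_assoc, hgf, hge]
      have hyT : Below c (f * e) := by
        have : Below c (g * (f * e)) := by rw [hxy]; exact he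
        exact top_right this
      have hye : f * e * e = f * e := by rw [mul_assoc, hee]
      have hfy : f * (f * e) = f * e := by rw [← mul_assoc, hff]
      have hey : e * (f * e) ≠ f * e := fun h => h2 (PR hc h hyT)
      refine caseC_pair hc hee he (prim_idem hgg) (hR _ hyT hfy hye hG2) heg hgT hye hyT hgne
        (fun h => hey (by rw [h, hee])) ?_
      intro H _ _
      exact ⟨g, Subsemigroup.subset_closure (by simp), f * e,
        Subsemigroup.subset_closure (by simp), hxy, by rw [hge]; exact fun h => hgne h.symm, hey⟩
  · by_cases hG2 : ∃ h, h * h = h ∧ Below c h ∧ f * h = h ∧ h * e = h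
    · obtain ⟨h, hhh, hhT, hfh, hhe⟩ := hG2
      have hhf : h * f = f := symR hc hf hhh hhT hfh
      have heh : e * h = e := symL hc he hhh hhT hhe
      have hhne : h ≠ e := by
        rintro rfl
        exact h2 hhf
      have hxy : (e * f) * h = e := by rw [mul_assoc, hfh, heh]
      have hxT : Below c (e * f) := by
        have : Below c ((e * f) * h) := by rw [hxy]; exact he
        exact top_left this
      have hex : e * (e * f) = e * f := by rw [← mul_assoc, hee]
      have hxf : e * f * f = e * f := by rw [mul_assoc, hff]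
      have hxe : e * f * e ≠ e * f := fun h => h1 (PL hc h hxT)
      refine caseC_pair hc hee he (hL _ hxT hex hxf hG1) (prim_idem hhh) hex hxT hhe hhT
        (fun h => hxe (by rw [h, hee])) hhne ?_
      intro H _ _
      exact ⟨e * f, Subsemigroup.subset_closure (by simp), h,
        Subsemigroup.subset_closure (by simp), hxy, hxe, by rw [heh]; exact fun h => hhne h.symm⟩
    · -- no corner contains an idempotent
      obtain ⟨u, v, huv⟩ := (hc e he).trans hf
      obtain ⟨t1, ht1⟩ := coe_mul_right f u
      obtain ⟨t2, ht2⟩ := coe_mul_left f v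
      have hff' : (f : WithOne S) * f = f := by rw [← WithOne.coe_mul, hff]
      have h12 : t1 * t2 = e := by
        apply WithOne.coe_injective
        rw [WithOne.coe_mul, ht1, ht2, huv]
        calc u * (f : WithOne S) * (f * v) = u * (f * f) * v := by simp only [mul_assoc]
          _ = u * f * v := by rw [hff']
      have ht1f : t1 * f = t1 := by
        apply WithOne.coe_injective
        rw [WithOne.coe_mul, ht1, mul_assoc, hff']
      have hft2 : f * t2 = t2 := by
        apply WithOne.coe_injective
        rw [WithOne.coe_mul, ht2, ← mul_assoc, hff']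
      obtain ⟨x, hx⟩ : ∃ x, x = e * t1 := ⟨_, rfl⟩
      obtain ⟨y, hy⟩ : ∃ y, y = t2 * e := ⟨_, rfl⟩
      have hxy : x * y = e := by
        calc x * y = e * (t1 * t2) * e := by rw [hx, hy]; simp only [mul_assoc]
          _ = e := by rw [h12, hee, hee]
      have hex : e * x = x := by rw [hx, ← mul_assoc, hee]
      have hye : y * e = y := by rw [hy, mul_assoc, hee]
      have hxf : x * f = x := by rw [hx, mul_assoc, ht1f]
      have hfy : f * y = y := by rw [hy, ← mul_assoc, hft2]
      have hxT : Below c x := by
        have : Below c (x * y) := by rw [hxy]; exact he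
        exact top_left this
      have hyT : Below c y := by
        have : Below c (x * y) := by rw [hxy]; exact he
        exact top_right this
      have hxe : x * e ≠ x := by
        intro h
        -- then `x` is in the group of `e`, and `L`-related to `f`
        apply hG1
        refine ⟨e, hee, he, hee, ?_⟩
        obtain ⟨w, hw⟩ := lstab hc (a := x) (b := e) he (by rw [h]; exact hxT)
        apply WithOne.coe_injective
        rw [WithOne.coe_mul]
        calc (e : WithOne S) * f = w * (x * e) * f := by rw [← hw]
          _ = w * ((x * e * f : S) : WithOne S) := by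
            rw [WithOne.coe_mul, WithOne.coe_mul]; simp only [mul_assoc]
          _ = w * ((x * e : S) : WithOne S) := by rw [h, hxf]
          _ = e := by rw [WithOne.coe_mul]; exact hw.symm
      have hey : e * y ≠ y := by
        intro h
        apply hG2
        refine ⟨e, hee, he, ?_, hee⟩
        obtain ⟨w, hw⟩ := rstab hc (a := e) (b := y) he (by rw [h]; exact hyT)
        apply WithOne.coe_injective
        rw [WithOne.coe_mul]
        calc (f : WithOne S) * e = f * (e * y * w) := by rw [← hw]
          _ = ((f * (e * y) : S) : WithOne S) * w := by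
            rw [WithOne.coe_mul, WithOne.coe_mul]; simp only [mul_assoc]
          _ = ((e * y : S) : WithOne S) * w := by rw [h, hfy]
          _ = e := by rw [WithOne.coe_mul]; exact hw.symm
      refine caseC_pair hc hee he (hL x hxT hex hxf hG1) (hR y hyT hfy hye hG2) hex hxT hye hyT
        (fun h => hxe (by rw [h, hee])) (fun h => hey (by rw [h, hee])) ?_
      intro H _ _
      exact ⟨x, Subsemigroup.subset_closure (by simp), y,
        Subsemigroup.subset_closure (by simp), hxy, hxe, hey⟩

end Pool.Agent.K35c.SG
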