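import Pool.Agent.K35c.SG.Monoid

set_option autoImplicit false

/-!
# The condition on the groups: transfer along isomorphisms, solvable groups
-/

namespace Pool.Agent.K35c.SG

universe u

theorem PPow.map {G H : Type*} [Group G] [Group H] (e : G ≃* H) {a : G} (h : PPow a) :
    PPow (e a) := by
  obtain ⟨p, k, hp, hk⟩ := h
  refine ⟨p, k, hp, ?_⟩
  rw [← hk]
  exact orderOf_injective e.toMonoidHom e.injective a

theorem PPGen.congr {G H : Type*} [Group G] [Group H] (e : G ≃* H) (h : PPGen G) : PPGen H := by
  rcases h with h | ⟨N, hN, a, b, ha, hb, hap, hbp, htop⟩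
  · exact Or.inl (e.symm.injective.subsingleton)
  right
  have hmem : ∀ g : G, e g ∈ N.map e.toMonoidHom ↔ g ∈ N := by
    intro g
    constructor
    · rintro ⟨x, hx, hxg⟩
      have : x = g := e.injective hxg
      rwa [← this]
    · intro h
      exact ⟨g, h, rfl⟩
  refine ⟨N.map e.toMonoidHom, hN.map e.toMonoidHom e.surjective, e a, e b,
    fun h => ha ((hmem a).1 h), fun h => hb ((hmem b).1 h), hap.map e, hbp.map e, ?_⟩
  have h1 : Subgroup.map e.toMonoidHom (Subgroup.closure (insert a (insert b (N : Set G)))) = ⊤ := by
    rw [htop, Subgroup.map_top_of_surjective _ e.surjective]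
  rw [MonoidHom.map_closure, Set.image_insert_eq, Set.image_insert_eq] at h1
  rw [← h1]
  rfl

/-- for a group it suffices to look at its subgroups -/
theorem gCond_group {G : Type u} [Group G] (h : ∀ H : Subgroup G, PPGen H) : GCond G := by
  intro K _ φ hφ
  let ψ : K →* G :=
    { toFun := φ
      map_one' := by
        have h1 : φ 1 * φ 1 = φ 1 * 1 := by rw [← map_mul, mul_one, mul_one]
        exact mul_left_cancel h1
      map_mul' := map_mul φ }
  have hψ : Function.Injective ψ := hφ
  exact (h ψ.range).congr (MonoidHom.ofInjective hψ).symm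

end Pool.Agent.K35c.SG
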