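import Pool.Agent.K35c.SG.CaseC

set_option autoImplicit false

/-!
# The maximal J-class is a right group: generators of prime power order
-/

namespace Pool.Agent.K35c.SG

open Pool.Agent.R636.FL Pool.Agent.Y396.Frankl

universe u

/-- the order of `a` is a prime power -/
def PPow {G : Type*} [Group G] (a : G) : Prop := ∃ p k : ℕ, p.Prime ∧ orderOf a = p ^ k

/-- `G` is trivial, or generated by a proper normal subgroup and two elements of prime power order
outside of it -/
def PPGen (G : Type*) [Group G] : Prop :=
  Subsingleton G ∨ ∃ N : Subgroup G, N.Normal ∧ ∃ a b : G, a ∉ N ∧ b ∉ N ∧ PPow a ∧ PPow b ∧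
    Subgroup.closure (insert a (insert b (N : Set G))) = ⊤

/-- all groups contained in the semigroup `S` satisfy `PPGen` -/
def GCond (S : Type u) [Semigroup S] : Prop :=
  ∀ (G : Type u) [Group G] (φ : G →ₙ* S), Function.Injective φ → PPGen G

/-- some element of prime power order outside of a proper subgroup -/
theorem exists_ppow {G : Type*} [Group G] [Finite G] {N : Subgroup G} {a : G} (ha : a ∉ N) :
    ∃ c, c ∉ N ∧ PPow c := by
  classical
  have hne : ({c : G | c ∉ N}).Nonempty := ⟨a, ha⟩
  obtain ⟨c, hc, hmin⟩ := (Set.toFinite {c : G | c ∉ N}).exists_minimalFor (fun c => orderOf c) _ hne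
  have hc' : c ∉ N := hc
  refine ⟨c, hc', ?_⟩
  have hpos := orderOf_pos c
  have h1 : orderOf c ≠ 1 := by
    intro h
    rw [orderOf_eq_one_iff] at h
    exact hc' (by rw [h]; exact one_mem _)
  -- `c ^ p` is in `N` for each prime divisor
  have h2 : ∀ p : ℕ, p.Prime → p ∣ orderOf c → c ^ p ∈ N := by
    intro p hp hpd
    by_contra hno
    have h3 : orderOf (c ^ p) < orderOf c := by
      rw [orderOf_pow, Nat.gcd_eq_right hpd]
      exact Nat.div_lt_self hpos hp.one_lt
    have h4 := hmin (j := c ^ p) hno h3.le
    exact absurd h4 (by simpa using h3)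
  refine ⟨(orderOf c).minFac, (orderOf c).primeFactorsList.length, Nat.minFac_prime h1,
    Nat.eq_prime_pow_of_unique_prime_dvd hpos.ne' ?_⟩
  intro q hq hqd
  by_contra hqp
  have hco : Nat.Coprime (orderOf c).minFac q :=
    (Nat.coprime_primes (Nat.minFac_prime h1) hq).2 (fun h => hqp h.symm)
  apply hc'
  have h5 := h2 _ (Nat.minFac_prime h1) (Nat.minFac_dvd _)
  have h6 := h2 q hq hqd
  have h7 : (c ^ ((orderOf c).minFac : ℤ)) ^ (Nat.gcdA (orderOf c).minFac q) *
      (c ^ (q : ℤ)) ^ (Nat.gcdB (orderOf c).minFac q) = c := by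
    rw [← zpow_mul, ← zpow_mul, ← zpow_add]
    have h8 := Nat.gcd_eq_gcd_ab (orderOf c).minFac q
    rw [hco.gcd_eq_one] at h8
    rw [← h8]
    simp
  rw [← h7]
  refine mul_mem (zpow_mem ?_ _) (zpow_mem ?_ _)
  · rw [zpow_natCast]; exact h5
  · rw [zpow_natCast]; exact h6

theorem ppGen_of_solvable (G : Type*) [Group G] [Finite G] (h : Group.IsSolvable G) : PPGen G := by
  rcases subsingleton_or_nontrivial G with hs | hn
  · exact Or.inl hs
  right
  have h1 := Group.IsSolvable.commutator_lt_top_of_nontrivial G
  obtain ⟨N, hN, hle⟩ := (eq_top_or_exists_le_coatom (commutator G)).resolve_left h1.ne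
  have hnorm : N.Normal := Subgroup.Normal.of_commutator_le G hle
  obtain ⟨a, ha⟩ : ∃ a, a ∉ N := by
    by_contra hno
    push Not at hno
    exact hN.1 ((Subgroup.eq_top_iff' N).2 hno)
  obtain ⟨c, hc, hcp⟩ := exists_ppow ha
  refine ⟨N, hnorm, c, c, hc, hc, hcp, hcp, ?_⟩
  have h2 : N < Subgroup.closure (insert c (insert c (N : Set G))) := by
    refine lt_of_le_of_ne (fun x hx => Subgroup.subset_closure (by simp [hx])) ?_
    intro h
    apply hc
    rw [h]
    exact Subgroup.subset_closure (by simp)
  exact hN.2 _ h2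

theorem caseR' {S : Type u} [Semigroup S] [Finite S] {c e : S} (hc : IsMax' c)
    (hee : e * e = e) (he : Below c e)
    (hR : ∀ f : S, f * f = f → Below c f → e * f = f ∧ f * e = e) (hG : GCond S) :
    Strong (Subsemigroup S) ∨
    ∃ x : S, ∀ a b : S, a ≠ x → b ≠ x → a * b ≠ x := by
  let _ := grpGroup hc hee he hR
  let φ : Grp c e →ₙ* S := ⟨fun g => g.1, fun a b => rfl⟩
  have hφ : Function.Injective φ := fun a b h => Subtype.ext h
  have : Finite (Grp c e) := inferInstanceAs (Finite {s : S // Below c s ∧ s * e = s})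
  have hone : φ 1 = e := rfl
  obtain ⟨mk, hmk⟩ : ∃ mk : (s : S) → Below c s → Grp c e, ∀ s hs, (mk s hs).1 = s * e :=
    ⟨fun s hs => ⟨s * e, top_mul hc hee he hR hs he, by rw [mul_assoc, hee]⟩, fun s hs => rfl⟩
  have hmul : ∀ x y : Grp c e, (x * y).1 = x.1 * y.1 := fun x y => rfl
  rcases hG (Grp c e) φ hφ with hsub | ⟨N, hN, a, b, ha, hb, ⟨p, k, hp, hk⟩, ⟨q, l, hq, hl⟩, hab⟩
  · right
    refine ⟨e, fun s t _ hte hst => hte ?_⟩
    have hsTop : Below c s := top_left (b := t) (by rw [hst]; exact he)
    have htTop : Below c t := top_right (a := s) (by rw [hst]; exact he)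
    -- `s e = e`
    have h1 : s * e = e := by
      have h2 : mk s hsTop = 1 := hsub.elim _ _
      have h3 := congrArg Subtype.val h2
      rw [hmk] at h3
      exact h3
    have h3 : s * t = t := by
      rw [← left_id hc hee he hR htTop, ← mul_assoc, h1]
    rw [← hst, h3]
  · left
    -- the subsemigroup `M`
    let M : Subsemigroup S :=
      { carrier := {s | ∀ hs : Below c s, mk s hs ∈ N}
        mul_mem' := by
          intro s t hs ht hst
          have h1 := hs (top_left hst)
          have h2 := ht (top_right hst)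
          have h3 := N.mul_mem h1 h2
          have h4 : mk s (top_left hst) * mk t (top_right hst) = mk (s * t) hst := by
            apply Subtype.ext
            rw [hmul, hmk, hmk, hmk]
            have h5 := left_id hc hee he hR (top_right hst)
            calc s * e * (t * e) = s * (e * t) * e := by simp only [mul_assoc]
              _ = s * t * e := by rw [h5]
          rw [h4] at h3
          exact h3 }
    have hgM : ∀ g : Grp c e, g.1 ∈ M ↔ g ∈ N := by
      intro g
      have h1 : mk g.1 g.2.1 = g := Subtype.ext (by rw [hmk]; exact g.2.2)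
      constructor
      · intro h
        have h2 := h g.2.1
        rwa [h1] at h2
      · intro h hs
        rw [h1]
        exact h
    have key : ∀ H K : Subsemigroup S, a.1 ∈ H → b.1 ∈ H → a.1 ∈ K → b.1 ∈ K →
        H ⊓ M ≤ K → H ≤ K := by
      intro H K haH hbH haK hbK hHK h hh
      by_cases hhT : Below c h
      · have h1 : mk h hhT ∈ Subgroup.closure {a, b} ⊔ N := by
          have h2 : Subgroup.closure (insert a (insert b (N : Set (Grp c e)))) ≤
              Subgroup.closure {a, b} ⊔ N := by
            rw [Subgroup.closure_le]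
            rintro x (rfl | rfl | hx)
            · exact Subgroup.mem_sup_left (Subgroup.subset_closure (by simp))
            · exact Subgroup.mem_sup_left (Subgroup.subset_closure (by simp))
            · exact Subgroup.mem_sup_right hx
          rw [hab] at h2
          exact h2 (Subgroup.mem_top _)
        obtain ⟨w, hw, n, hn, hwn⟩ := Subgroup.mem_sup_of_normal_right.1 h1
        have hwK : φ w ∈ K := closure_le_of_mem φ K haK hbK hw
        have hwH : φ w⁻¹ ∈ H := closure_le_of_mem φ H haH hbH (inv_mem hw)
        have h3 : φ w⁻¹ * h ∈ H := H.mul_mem hwH hh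
        have h4 : φ w⁻¹ * h ∈ M := by
          intro hs
          have h5 : mk (φ w⁻¹ * h) hs = w⁻¹ * mk h hhT := by
            apply Subtype.ext
            rw [hmul, hmk, hmk, mul_assoc]
            rfl
          rw [h5, ← hwn, inv_mul_cancel_left]
          exact hn
        have h6 := K.mul_mem hwK (hHK ⟨h3, h4⟩)
        have h7 : φ w * (φ w⁻¹ * h) = h := by
          rw [← mul_assoc, ← map_mul, mul_inv_cancel, hone]
          exact left_id hc hee he hR hhT
        rwa [h7] at h6
      · exact hHK ⟨hh, fun hs => absurd hs hhT⟩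
    have ha1 : a ≠ 1 := fun h => ha (by rw [h]; exact one_mem _)
    have hb1 : b ≠ 1 := fun h => hb (by rw [h]; exact one_mem _)
    refine strong_of_pair (x := a.1) (y := b.1) M (prim_group φ hφ ha1 hp hk)
      (prim_group φ hφ hb1 hq hl) (fun h => ha ((hgM a).1 h)) (fun h => hb ((hgM b).1 h)) key ?_
    refine ⟨⊥, fun h => h, fun h => h, fun H haH hbH h => ?_⟩
    have h1 : φ 1 ∈ H ⊓ M :=
      ⟨closure_le_of_mem φ H haH hbH (one_mem _), (hgM 1).2 (one_mem _)⟩
    rw [h] at h1
    exact h1

end Pool.Agent.K35c.SG
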