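import Pool.Agent.K35c.SG.GroupCase

set_option autoImplicit false

/-!
# The lattice of the subsemigroups of a finite semigroup
-/

namespace Pool.Agent.K35c.SG

open Pool.Agent.R636.FL Pool.Agent.Y396.Frankl

universe u

open MulOpposite in
theorem gCond_op {S : Type u} [Semigroup S] (h : GCond S) : GCond Sᵐᵒᵖ := by
  intro G _ φ hφ
  refine h G ⟨fun g => unop (φ g⁻¹), fun a b => ?_⟩ ?_
  · rw [mul_inv_rev, map_mul, unop_mul]
  · intro a b hab
    exact inv_injective (hφ (unop_injective hab))

theorem gCond_sub {S : Type u} [Semigroup S] (T : Subsemigroup S) (h : GCond S) : GCond T := by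
  intro G _ φ hφ
  exact h G ((MulMemClass.subtype T).comp φ) (Subtype.val_injective.comp hφ)

theorem strong_op {S : Type u} [Semigroup S] (h : Strong (Subsemigroup Sᵐᵒᵖ)) :
    Strong (Subsemigroup S) :=
  h.congr (Subsemigroup.opEquiv (M := S)).symm

section

variable {S : Type u} [Semigroup S] [Finite S] {c : S} (hc : IsMax' c)

include hc

open MulOpposite in
theorem dichotomy (hG : GCond S) :
    Strong (Subsemigroup S) ∨ ∃ x : S, ∀ a b : S, a ≠ x → b ≠ x → a * b ≠ x := by
  by_cases h0 : ∃ a b, a * b = c
  swap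
  · right
    exact ⟨c, fun a b _ _ h => h0 ⟨a, b, h⟩⟩
  obtain ⟨a, b, hab⟩ := h0
  obtain ⟨e0, he0, he0'⟩ := exists_idem hc (a := a) (b := b) (by rw [hab]; exact Below.refl c)
  by_cases hC : ∃ e f : S, e * e = e ∧ Below c e ∧ f * f = f ∧ Below c f ∧ f * e ≠ f ∧ e * f ≠ f
  · obtain ⟨e, f, hee, he, hff, hf, h1, h2⟩ := hC
    exact Or.inl (caseC' hc hee he hff hf h1 h2)
  have hC' : ∀ e f : S, e * e = e → Below c e → f * f = f → Below c f → f * e ≠ f → e * f = f := by
    intro e f hee he hff hf h1
    by_contra h2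
    exact hC ⟨e, f, hee, he, hff, hf, h1, h2⟩
  by_cases hR : ∀ e f : S, e * e = e → Below c e → f * f = f → Below c f → e * f = f
  · exact caseR' hc he0 he0' (fun f hff hf => ⟨hR e0 f he0 he0' hff hf, hR f e0 hff hf he0 he0'⟩) hG
  · have hL : ∀ e f : S, e * e = e → Below c e → f * f = f → Below c f → f * e = f := by
      by_contra hL
      push Not at hR hL
      obtain ⟨e1, f1, he1, he1', hf1, hf1', h1⟩ := hR
      obtain ⟨e2, f2, he2, he2', hf2, hf2', h2⟩ := hL
      have h3 : f1 * e1 = f1 := by
        by_contra h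
        exact h1 (hC' e1 f1 he1 he1' hf1 hf1' h)
      -- some `g` not L-related to `e1`
      have hg : ∃ g : S, g * g = g ∧ Below c g ∧ g * e1 ≠ g := by
        by_contra hno
        push Not at hno
        have h4 := hno e2 he2 he2'
        have h5 := hno f2 hf2 hf2'
        have h6 := symL hc he1' he2 he2' h4
        apply h2
        calc f2 * e2 = (f2 * e1) * e2 := by rw [h5]
          _ = f2 * (e1 * e2) := mul_assoc _ _ _
          _ = f2 := by rw [h6, h5]
      obtain ⟨g, hg, hg', hge⟩ := hg
      have h4 := hC' e1 g he1 he1' hg hg' hge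
      have h5 : g * f1 ≠ g := by
        intro h
        apply hge
        calc g * e1 = (g * f1) * e1 := by rw [h]
          _ = g * (f1 * e1) := mul_assoc _ _ _
          _ = g := by rw [h3, h]
      have h6 := hC' f1 g hf1 hf1' hg hg' h5
      have h7 := symR hc hf1' hg hg' h6
      apply h1
      calc e1 * f1 = e1 * (g * f1) := by rw [h7]
        _ = (e1 * g) * f1 := (mul_assoc _ _ _).symm
        _ = f1 := by rw [h4, h7]
    have : Finite Sᵐᵒᵖ := Finite.of_equiv S MulOpposite.opEquiv
    have hc' : IsMax' (op c) := by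
      intro a ha
      obtain ⟨a, rfl⟩ := op_surjective a
      exact below_op.2 (hc a (below_op.1 ha))
    rcases caseR' (S := Sᵐᵒᵖ) (e := op e0) hc' (by rw [← op_mul, he0]) (below_op.2 he0')
      (by
        intro f hff hf
        obtain ⟨f, rfl⟩ := op_surjective f
        have hff' : f * f = f := op_injective (by rw [op_mul]; exact hff)
        have hf' := below_op.1 hf
        rw [← op_mul, ← op_mul, hL e0 f he0 he0' hff' hf', hL f e0 hff' hf' he0 he0']
        exact ⟨rfl, rfl⟩) (gCond_op hG) with h | ⟨x, hx⟩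
    · exact Or.inl (strong_op h)
    · right
      refine ⟨unop x, fun a b ha hb hab => ?_⟩
      refine hx (op b) (op a) (fun h => hb ?_) (fun h => ha ?_) ?_
      · rw [← h]; rfl
      · rw [← h]; rfl
      · rw [← op_mul, hab]; rfl

end

/-- the subsemigroups of a subsemigroup -/
def iicEquiv {S : Type u} [Semigroup S] (T : Subsemigroup S) : Subsemigroup T ≃o Set.Iic T where
  toFun K := ⟨K.map (MulMemClass.subtype T), by
    rintro _ ⟨y, _, rfl⟩
    exact y.2⟩
  invFun U := U.1.comap (MulMemClass.subtype T)
  left_inv K := by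
    ext y
    constructor
    · rintro ⟨z, hz, hzy⟩
      have : z = y := Subtype.ext hzy
      rwa [← this]
    · intro h
      exact ⟨y, h, rfl⟩
  right_inv U := by
    apply Subtype.ext
    ext y
    constructor
    · rintro ⟨z, hz, rfl⟩
      exact hz
    · intro hy
      exact ⟨⟨y, U.2 hy⟩, hy, rfl⟩
  map_rel_iff' := by
    intro K L
    constructor
    · intro h y hy
      obtain ⟨z, hz, hzy⟩ := h ⟨y, hy, rfl⟩
      have : z = y := Subtype.ext hzy
      rwa [← this]
    · rintro h _ ⟨y, hy, rfl⟩
      exact ⟨y, h hy, rfl⟩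

theorem fin_sub (S : Type*) [Semigroup S] [Finite S] : Finite (Subsemigroup S) :=
  Finite.of_injective (fun H : Subsemigroup S => (H : Set S)) SetLike.coe_injective

theorem step' {S : Type u} [Semigroup S] [Finite S] (x : S) (T : Subsemigroup S)
    (hT : ∀ a, a ∈ T ↔ a ≠ x) (ih : Good (Subsemigroup T)) : Good (Subsemigroup S) := by
  have := fin_sub S
  have hprim : Prim x := ⟨T, fun h => (hT x).1 h rfl, fun y _ => by
    by_cases hy : y = x
    · left; rw [hy]; exact self_mem x
    · exact Or.inr ((hT y).2 hy)⟩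
  have hJT : ¬ Subsemigroup.closure {x} ≤ T := by
    rw [Subsemigroup.closure_singleton_le_iff_mem]
    exact fun h => (hT x).1 h rfl
  have hrec : ∀ U : Subsemigroup S, Subsemigroup.closure {x} ≤ U →
      Subsemigroup.closure {x} ⊔ (U ⊓ T) = U := by
    intro U hU
    apply le_antisymm (sup_le hU inf_le_left)
    intro y hy
    by_cases hyx : y = x
    · rw [hyx]
      exact (le_sup_left : _ ≤ Subsemigroup.closure {x} ⊔ (U ⊓ T)) (self_mem x)
    · exact (le_sup_right : _ ≤ Subsemigroup.closure {x} ⊔ (U ⊓ T)) ⟨hy, (hT y).2 hyx⟩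
  rcases one_crit hJT hrec with h | h
  · exact good_of_split hJT hrec h (ih.congr (iicEquiv T))
  · exact Or.inl ⟨_, hprim.supIrred, h⟩

/-- **The lattice of the subsemigroups.** -/
theorem good_subsemigroup (n : ℕ) : ∀ (S : Type u) [Semigroup S] [Finite S], Nat.card S ≤ n →
    GCond S → Good (Subsemigroup S) := by
  induction n with
  | zero =>
    intro S _ _ hn _
    have := fin_sub S
    have : IsEmpty S := (Nat.card_eq_zero.1 (Nat.le_zero.1 hn)).resolve_right
      (fun h => h.not_finite inferInstance)
    have : Subsingleton (Subsemigroup S) := ⟨fun H K => by ext x; exact isEmptyElim x⟩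
    exact good_of_subsingleton
  | succ n ih =>
    intro S _ _ hn hG
    have := fin_sub S
    rcases isEmpty_or_nonempty S with hS | hS
    · have : Subsingleton (Subsemigroup S) := ⟨fun H K => by ext x; exact isEmptyElim x⟩
      exact good_of_subsingleton
    obtain ⟨c, hc⟩ := exists_max (S := S)
    rcases dichotomy hc hG with h | ⟨x, hx⟩
    · exact Or.inl h
    let T : Subsemigroup S :=
      { carrier := {a | a ≠ x}
        mul_mem' := fun {a b} ha hb => hx a b ha hb }
    refine step' x T (fun a => Iff.rfl) (ih T ?_ (gCond_sub T hG))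
    have h1 : Nat.card T < Nat.card S :=
      Finite.card_subtype_lt (p := fun a : S => a ≠ x) (x := x) (fun h => h rfl)
    omega

end Pool.Agent.K35c.SG
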