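import Pool.Agent.K35c.SG.Main

set_option autoImplicit false

/-!
# The lattice of the submonoids of a finite monoid
-/

namespace Pool.Agent.K35c.SG

open Pool.Agent.R636.FL Pool.Agent.Y396.Frankl

universe u

section

variable {M : Type u} [Monoid M]

theorem fin_submon (M : Type*) [Monoid M] [Finite M] : Finite (Submonoid M) :=
  Finite.of_injective (fun H : Submonoid M => (H : Set M)) SetLike.coe_injective

/-- in a finite monoid the factors of a unit are units -/
theorem unit_factors [Finite M] {s t : M} (u : Mˣ) (h : (u : M) = s * t) :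
    ∃ v w : Mˣ, (v : M) = s ∧ (w : M) = t ∧ u = v * w := by
  have hs : IsUnit s := by
    have h1 : s * (t * ((u⁻¹ : Mˣ) : M)) = 1 := by rw [← mul_assoc, ← h, Units.mul_inv]
    exact IsUnit.of_mul_eq_one _ h1
  obtain ⟨v, rfl⟩ := hs
  have ht : t = ((v⁻¹ * u : Mˣ) : M) := by
    rw [Units.val_mul, h, ← mul_assoc, Units.inv_mul, one_mul]
  exact ⟨v, v⁻¹ * u, rfl, ht.symm, by rw [mul_inv_cancel_left]⟩

/-- the elements that are not units outside of `N` -/
def mN [Finite M] (N : Subgroup Mˣ) : Submonoid M where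
  carrier := {s | ∀ u : Mˣ, (u : M) = s → u ∈ N}
  one_mem' := by
    intro u hu
    have : u = 1 := Units.ext hu
    rw [this]; exact one_mem _
  mul_mem' := by
    intro s t hs ht u hu
    obtain ⟨v, w, hv, hw, rfl⟩ := unit_factors u hu
    exact N.mul_mem (hs v hv) (ht w hw)

theorem mem_mN [Finite M] {N : Subgroup Mˣ} {u : Mˣ} : (u : M) ∈ mN N ↔ u ∈ N := by
  constructor
  · intro h; exact h u rfl
  · intro h v hv
    have : v = u := Units.ext hv
    rw [this]; exact h

/-- the units of a submonoid form a subgroup -/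
theorem closure_units_mem [Finite M] (H : Submonoid M) {X : Set Mˣ} (hX : ∀ x ∈ X, (x : M) ∈ H)
    {w : Mˣ} (hw : w ∈ Subgroup.closure X) : (w : M) ∈ H := by
  have hinv : ∀ u : Mˣ, (u : M) ∈ H → ((u⁻¹ : Mˣ) : M) ∈ H := by
    intro u hu
    have h1 : ∃ n : ℕ, u⁻¹ = u ^ n := by
      have := Finite.of_injective (fun u : Mˣ => (u : M)) Units.val_injective
      refine ⟨orderOf u - 1, ?_⟩
      have hpos := orderOf_pos u
      rw [inv_eq_iff_mul_eq_one, ← pow_succ']
      rw [show orderOf u - 1 + 1 = orderOf u by omega, pow_orderOf_eq_one]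
    obtain ⟨n, hn⟩ := h1
    rw [hn, Units.val_pow_eq_pow_val]
    exact pow_mem hu n
  induction hw using Subgroup.closure_induction with
  | mem x hx => exact hX x hx
  | one => exact H.one_mem
  | mul x y _ _ hx hy => exact H.mul_mem hx hy
  | inv x _ hx => exact hinv x hx

/-- recovery -/
theorem recoverM [Finite M] {N : Subgroup Mˣ} (hN : N.Normal) {X : Set Mˣ}
    (hX : Subgroup.closure X ⊔ N = ⊤) {H K : Submonoid M} (hXH : ∀ x ∈ X, (x : M) ∈ H)
    (hXK : ∀ x ∈ X, (x : M) ∈ K) (h : H ⊓ mN N ≤ K) : H ≤ K := by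
  intro s hs
  by_cases hu : IsUnit s
  · obtain ⟨u, rfl⟩ := hu
    have h1 : u ∈ Subgroup.closure X ⊔ N := by rw [hX]; exact Subgroup.mem_top _
    obtain ⟨w, hw, n, hn, hwn⟩ := Subgroup.mem_sup_of_normal_right.1 h1
    have h2 : ((w⁻¹ * u : Mˣ) : M) ∈ H :=
      H.mul_mem (closure_units_mem H hXH (inv_mem hw)) hs
    have h3 : w⁻¹ * u ∈ N := by rw [← hwn, inv_mul_cancel_left]; exact hn
    have h4 := h ⟨h2, mem_mN.2 h3⟩
    have h5 := K.mul_mem (closure_units_mem K hXK hw) h4
    rwa [← Units.val_mul, mul_inv_cancel_left] at h5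
  · refine h ⟨hs, fun u hu' => ?_⟩
    exact absurd ⟨u, hu'⟩ hu

theorem supIrred_unit [Finite M] {c : Mˣ} (hc1 : c ≠ 1) (hc : PPow c) :
    SupIrred (Submonoid.closure {(c : M)}) := by
  have hfin := Finite.of_injective (fun u : Mˣ => (u : M)) Units.val_injective
  obtain ⟨p, k, hp, hk⟩ := hc
  have hk1 : k ≠ 0 := by
    rintro rfl
    rw [pow_zero, orderOf_eq_one_iff] at hk
    exact hc1 hk
  have hmem : (c : M) ∈ Submonoid.closure {(c : M)} := Submonoid.subset_closure rfl
  -- the proper submonoids consist of powers of `c ^ p`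
  have key : ∀ H : Submonoid M, H ≤ Submonoid.closure {(c : M)} → (c : M) ∉ H →
      H ≤ Submonoid.closure {((c ^ p : Mˣ) : M)} := by
    intro H hH hcH y hy
    have h1 := hH hy
    rw [Submonoid.mem_closure_singleton] at h1
    obtain ⟨i, rfl⟩ := h1
    by_cases hpi : p ∣ i
    · obtain ⟨j, rfl⟩ := hpi
      rw [Submonoid.mem_closure_singleton]
      exact ⟨j, by rw [Units.val_pow_eq_pow_val, pow_mul]⟩
    · exfalso
      apply hcH
      have hco : Nat.Coprime i (orderOf c) := by
        rw [hk]
        exact Nat.Coprime.pow_right k ((Nat.Prime.coprime_iff_not_dvd hp).2 hpi).symm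
      obtain ⟨m, hm⟩ := exists_pow_eq_self_of_coprime hco
      have h7 : (c : M) = ((c : M) ^ i) ^ m := by
        rw [← Units.val_pow_eq_pow_val, ← Units.val_pow_eq_pow_val, hm]
      rw [h7]
      exact pow_mem hy m
  have hnot : (c : M) ∉ Submonoid.closure {((c ^ p : Mˣ) : M)} := by
    intro h
    rw [Submonoid.mem_closure_singleton] at h
    obtain ⟨i, hi⟩ := h
    have h1 : (c ^ p) ^ i = c := Units.ext (by rw [Units.val_pow_eq_pow_val]; exact hi)
    have h2 : c ^ 1 = c ^ (p * i) := by rw [pow_one, pow_mul]; exact h1.symm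
    rw [pow_inj_mod, hk] at h2
    have h3 : (1 : ℕ) ≡ p * i [MOD p ^ k] := h2
    have h4 : (1 : ℕ) ≡ p * i [MOD p] := h3.of_dvd (dvd_pow_self p hk1)
    have h5 : p * i ≡ 0 [MOD p] := (Nat.modEq_zero_iff_dvd.2 (Dvd.intro i rfl))
    have h6 := (h4.trans h5)
    rw [Nat.modEq_zero_iff_dvd, Nat.dvd_one] at h6
    exact hp.one_lt.ne' h6
  refine ⟨?_, ?_⟩
  · intro hmin
    have h1 : Submonoid.closure {(c : M)} ≤ ⊥ := hmin bot_le
    have h2 := h1 hmem
    rw [Submonoid.mem_bot] at h2
    exact hc1 (Units.ext h2)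
  · intro H K hHK
    by_cases h1 : (c : M) ∈ H
    · left
      exact le_antisymm (by rw [← hHK]; exact le_sup_left)
        ((Submonoid.closure_singleton_le_iff_mem _ H).2 h1)
    by_cases h2 : (c : M) ∈ K
    · right
      exact le_antisymm (by rw [← hHK]; exact le_sup_right)
        ((Submonoid.closure_singleton_le_iff_mem _ K).2 h2)
    exfalso
    have h3 : H ⊔ K ≤ Submonoid.closure {((c ^ p : Mˣ) : M)} :=
      sup_le (key H (by rw [← hHK]; exact le_sup_left) h1)
        (key K (by rw [← hHK]; exact le_sup_right) h2)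
    exact hnot (h3 (by rw [hHK]; exact hmem))

/-- the submonoids of a submonoid -/
def iicEquivM (T : Submonoid M) : Submonoid T ≃o Set.Iic T where
  toFun K := ⟨K.map T.subtype, by
    rintro _ ⟨y, _, rfl⟩
    exact y.2⟩
  invFun U := U.1.comap T.subtype
  left_inv K := by
    ext y
    constructor
    · rintro ⟨z, hz, hzy⟩
      have : z = y := Subtype.ext hzy
      rwa [← this]
    · intro h
      exact ⟨y, h, rfl⟩
  right_inv U := by
    apply Subtype.ext
    ext y
    constructor
    · rintro ⟨z, hz, rfl⟩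
      exact hz
    · intro hy
      exact ⟨⟨y, U.2 hy⟩, hy, rfl⟩
  map_rel_iff' := by
    intro K L
    constructor
    · intro h y hy
      obtain ⟨z, hz, hzy⟩ := h ⟨y, hy, rfl⟩
      have : z = y := Subtype.ext hzy
      rwa [← this]
    · rintro h _ ⟨y, hy, rfl⟩
      exact ⟨y, h hy, rfl⟩

theorem gCond_submon (T : Submonoid M) (h : GCond M) : GCond T := by
  intro G _ φ hφ
  exact h G ((MulMemClass.subtype T).comp φ) (Subtype.val_injective.comp hφ)

/-- one generator above a normal subgroup of the group of units -/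
theorem one_gen [Finite M] {N : Subgroup Mˣ} (hN : N.Normal) {c : Mˣ} (hcN : c ∉ N) (hc : PPow c)
    (htop : Subgroup.closure {c} ⊔ N = ⊤) (ih : Good (Submonoid (mN N))) : Good (Submonoid M) := by
  have := fin_submon M
  have hc1 : c ≠ 1 := fun h => hcN (by rw [h]; exact one_mem _)
  have hJT : ¬ Submonoid.closure {(c : M)} ≤ mN N := by
    rw [Submonoid.closure_singleton_le_iff_mem]
    exact fun h => hcN (mem_mN.1 h)
  have hrec : ∀ U : Submonoid M, Submonoid.closure {(c : M)} ≤ U →
      Submonoid.closure {(c : M)} ⊔ (U ⊓ mN N) = U := by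
    intro U hU
    apply le_antisymm (sup_le hU inf_le_left)
    refine recoverM hN htop ?_ ?_ le_sup_right
    · intro x hx
      rw [Set.mem_singleton_iff.1 hx]
      exact hU (Submonoid.subset_closure rfl)
    · intro x hx
      rw [Set.mem_singleton_iff.1 hx]
      exact (le_sup_left : _ ≤ Submonoid.closure {(c : M)} ⊔ (U ⊓ mN N))
        (Submonoid.subset_closure rfl)
  rcases one_crit hJT hrec with h | h
  · exact good_of_split hJT hrec h (ih.congr (iicEquivM (mN N)))
  · exact Or.inl ⟨_, supIrred_unit hc1 hc, h⟩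

end

/-- if `a` is a power of `b a b⁻¹`, then `b` normalizes `⟨a⟩` -/
theorem zpowers_conj {G : Type*} [Group G] [Finite G] {a b : G}
    (h : a ∈ Subgroup.zpowers (b * a * b⁻¹)) :
    Subgroup.zpowers (b * a * b⁻¹) = Subgroup.zpowers a := by
  have h1 : Subgroup.zpowers a ≤ Subgroup.zpowers (b * a * b⁻¹) := by
    rw [Subgroup.zpowers_le]; exact h
  have h2 : Nat.card (Subgroup.zpowers (b * a * b⁻¹)) = Nat.card (Subgroup.zpowers a) := by
    rw [Nat.card_zpowers, Nat.card_zpowers]
    have h3 : b * a * b⁻¹ = MulAut.conj b a := rfl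
    rw [h3]
    exact orderOf_injective (MulAut.conj b).toMonoidHom (MulAut.conj b).injective a
  exact (Subgroup.eq_of_le_of_card_ge h1 (by rw [h2])).symm

/-- one generator above a normal subgroup, or a conjugate avoids both generators -/
theorem one_or_two {G : Type*} [Group G] [Finite G] (hG : PPGen G) :
    Subsingleton G ∨
    (∃ N : Subgroup G, N.Normal ∧ ∃ c, c ∉ N ∧ PPow c ∧ Subgroup.closure {c} ⊔ N = ⊤) ∨
    (∃ N : Subgroup G, N.Normal ∧ ∃ a b c : G, a ∉ N ∧ b ∉ N ∧ c ∉ N ∧ PPow a ∧ PPow b ∧
      Subgroup.closure {a, b} ⊔ N = ⊤ ∧ a ∉ Subgroup.zpowers c ∧ b ∉ Subgroup.zpowers c) := by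
  rcases hG with h | ⟨N, hN, a, b, ha, hb, hap, hbp, htop⟩
  · exact Or.inl h
  right
  have htop' : Subgroup.closure {a, b} ⊔ N = ⊤ := by
    rw [eq_top_iff, ← htop, Subgroup.closure_le]
    rintro x (rfl | rfl | hx)
    · exact Subgroup.mem_sup_left (Subgroup.subset_closure (by simp))
    · exact Subgroup.mem_sup_left (Subgroup.subset_closure (by simp))
    · exact Subgroup.mem_sup_right hx
  by_cases h1 : b ∈ Subgroup.zpowers (b * a * b⁻¹)
  · left
    refine ⟨N, hN, a, ha, hap, ?_⟩
    have h2 : b ∈ Subgroup.zpowers a := by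
      rw [Subgroup.mem_zpowers_iff] at h1 ⊢
      obtain ⟨k, hk⟩ := h1
      refine ⟨k, ?_⟩
      rw [conj_zpow] at hk
      exact mul_left_cancel (mul_inv_eq_iff_eq_mul.1 hk)
    rw [eq_top_iff, ← htop']
    refine sup_le ?_ le_sup_right
    rw [Subgroup.closure_le]
    rintro x (rfl | hx)
    · exact Subgroup.mem_sup_left (Subgroup.subset_closure rfl)
    · rw [Set.mem_singleton_iff.1 hx]
      refine Subgroup.mem_sup_left ?_
      rw [← Subgroup.zpowers_eq_closure]
      exact h2
  by_cases h2 : a ∈ Subgroup.zpowers (b * a * b⁻¹)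
  · left
    have h3 := zpowers_conj h2
    -- `⟨a⟩ N` is normal
    have hnorm : (Subgroup.closure {a} ⊔ N).Normal := by
      rw [← Subgroup.normalizer_eq_top_iff, eq_top_iff, ← htop']
      refine sup_le ?_ (le_trans le_sup_right Subgroup.le_normalizer)
      rw [Subgroup.closure_le]
      rintro x (rfl | hx)
      · exact Subgroup.le_normalizer (Subgroup.mem_sup_left (Subgroup.subset_closure rfl))
      · rw [Set.mem_singleton_iff.1 hx]
        have h4 : (Subgroup.closure {a} ⊔ N).map (MulAut.conj b).toMonoidHom ≤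
            Subgroup.closure {a} ⊔ N := by
          rw [Subgroup.map_sup]
          refine sup_le ?_ ?_
          · rw [MonoidHom.map_closure, Subgroup.closure_le]
            rintro _ ⟨y, hy, rfl⟩
            rw [Set.mem_singleton_iff.1 hy]
            refine Subgroup.mem_sup_left ?_
            rw [← Subgroup.zpowers_eq_closure, ← h3]
            exact Subgroup.mem_zpowers _
          · rintro _ ⟨y, hy, rfl⟩
            exact Subgroup.mem_sup_right (hN.conj_mem y hy b)
        have h5 : (Subgroup.closure {a} ⊔ N).map (MulAut.conj b).toMonoidHom =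
            Subgroup.closure {a} ⊔ N := by
          apply Subgroup.eq_of_le_of_card_ge h4
          rw [Subgroup.card_map_of_injective (MulAut.conj b).injective]
        rw [SetLike.mem_coe, Subgroup.mem_normalizer_iff]
        intro h
        constructor
        · intro hh
          rw [← h5]
          exact ⟨h, hh, rfl⟩
        · intro hh
          rw [← h5] at hh
          obtain ⟨y, hy, hy'⟩ := hh
          have h6 : y = h := (MulAut.conj b).injective hy'
          rw [← h6]; exact hy
    by_cases h4 : Subgroup.closure {a} ⊔ N = ⊤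
    · exact ⟨N, hN, a, ha, hap, h4⟩
    · have h5 : Subgroup.closure {b} ⊔ (Subgroup.closure {a} ⊔ N) = ⊤ := by
        rw [eq_top_iff, ← htop']
        refine sup_le ?_ (le_trans le_sup_right le_sup_right)
        rw [Subgroup.closure_le]
        rintro x (rfl | hx)
        · exact Subgroup.mem_sup_right (Subgroup.mem_sup_left (Subgroup.subset_closure rfl))
        · rw [Set.mem_singleton_iff.1 hx]
          exact Subgroup.mem_sup_left (Subgroup.subset_closure rfl)
      refine ⟨Subgroup.closure {a} ⊔ N, hnorm, b, fun hbP => h4 ?_, hbp, h5⟩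
      rw [eq_top_iff, ← h5]
      refine sup_le ?_ le_rfl
      rw [Subgroup.closure_le]
      rintro x hx
      rw [Set.mem_singleton_iff.1 hx]
      exact hbP
  · right
    refine ⟨N, hN, a, b, b * a * b⁻¹, ha, hb, ?_, hap, hbp, htop', h2, h1⟩
    intro h
    apply ha
    have h3 := hN.conj_mem _ h b⁻¹
    have h4 : b⁻¹ * (b * a * b⁻¹) * b⁻¹⁻¹ = a := by group
    rwa [h4] at h3

/-- monoids whose only unit is `1` -/
def noUnitsEquiv {M : Type u} [Monoid M] (T : Subsemigroup M) (hT : ∀ s, s ∈ T ↔ s ≠ 1) :
    Subsemigroup T ≃o Submonoid M where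
  toFun K :=
    { carrier := {s | s = 1 ∨ ∃ h : s ∈ T, (⟨s, h⟩ : T) ∈ K}
      one_mem' := Or.inl rfl
      mul_mem' := by
        rintro s t (rfl | ⟨hs, hs'⟩) (rfl | ⟨ht, ht'⟩)
        · left; exact mul_one 1
        · right; exact ⟨by rw [one_mul]; exact ht, by simpa using ht'⟩
        · right; exact ⟨by rw [mul_one]; exact hs, by simpa using hs'⟩
        · right; exact ⟨T.mul_mem hs ht, K.mul_mem hs' ht'⟩ }
  invFun U :=
    { carrier := {x | (x : M) ∈ U}
      mul_mem' := fun {a b} ha hb => U.mul_mem ha hb }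
  left_inv K := by
    ext x
    constructor
    · rintro (h | ⟨h, h'⟩)
      · exact absurd h ((hT _).1 x.2)
      · exact h'
    · intro h
      exact Or.inr ⟨x.2, h⟩
  right_inv U := by
    ext x
    constructor
    · rintro (rfl | ⟨h, h'⟩)
      · exact U.one_mem
      · exact h'
    · intro h
      by_cases hx : x = 1
      · exact Or.inl hx
      · exact Or.inr ⟨(hT x).2 hx, h⟩
  map_rel_iff' := by
    intro K L
    constructor
    · intro h x hx
      rcases h (Or.inr ⟨x.2, hx⟩) with h1 | ⟨h1, h2⟩
      · exact absurd h1 ((hT _).1 x.2)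
      · exact h2
    · rintro h x (hx | ⟨hx, hx'⟩)
      · exact Or.inl hx
      · exact Or.inr ⟨hx, h hx'⟩

/-- **The lattice of the submonoids.** -/
theorem good_submonoid (n : ℕ) : ∀ (M : Type u) [Monoid M] [Finite M], Nat.card M ≤ n →
    GCond M → Good (Submonoid M) := by
  induction n with
  | zero =>
    intro M _ _ hn _
    have := (Nat.card_eq_zero.1 (Nat.le_zero.1 hn)).resolve_right
      (fun h => h.not_finite inferInstance)
    exact isEmptyElim (1 : M)
  | succ n ih =>
    intro M _ _ hn hG
    have hf := fin_submon M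
    have hfin := Finite.of_injective (fun u : Mˣ => (u : M)) Units.val_injective
    have hcard : ∀ (N : Subgroup Mˣ) (c : Mˣ), c ∉ N → Nat.card (mN N) ≤ n := by
      intro N c hc
      have h1 : Nat.card (mN N) < Nat.card M :=
        Finite.card_subtype_lt (p := fun a : M => a ∈ mN N) (x := (c : M))
          (fun h => hc (mem_mN.1 h))
      omega
    rcases one_or_two (hG Mˣ ⟨fun u => (u : M), fun _ _ => rfl⟩ Units.val_injective) with
      h | ⟨N, hN, c, hc, hcp, htop⟩ | ⟨N, hN, a, b, c, ha, hb, hc, hap, hbp, htop, hac, hbc⟩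
    · -- no units
      have h1 : ∀ s t : M, s ≠ 1 → t ≠ 1 → s * t ≠ 1 := by
        intro s t hs _ hst
        obtain ⟨v, w, hv, hw, -⟩ := unit_factors (M := M) 1 (by rw [hst]; rfl)
        apply hs
        rw [← hv, h.elim v 1]
        rfl
      let T : Subsemigroup M :=
        { carrier := {a | a ≠ 1}
          mul_mem' := fun {a b} ha hb => h1 a b ha hb }
      have h2 := good_subsemigroup (Nat.card T) T le_rfl (gCond_sub T hG)
      exact h2.congr (noUnitsEquiv T (fun s => Iff.rfl))
    · exact one_gen hN hc hcp htop (ih _ (hcard N c hc) (gCond_submon _ hG))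
    · left
      have ha1 : a ≠ 1 := fun h => ha (by rw [h]; exact one_mem _)
      have hb1 : b ≠ 1 := fun h => hb (by rw [h]; exact one_mem _)
      have hXX : ∀ H : Submonoid M, (a : M) ∈ H → (b : M) ∈ H →
          ∀ x ∈ ({a, b} : Set Mˣ), (x : M) ∈ H := by
        rintro H haH hbH x (rfl | hx)
        · exact haH
        · rw [Set.mem_singleton_iff.1 hx]; exact hbH
      have key := crit_card_lt (𝓗 := Submonoid M) (fun H => (a : M) ∈ H) (fun H => (b : M) ∈ H)
        (fun H => H ⊓ mN N) ?_ ?_ ?_
      · rcases key with h | h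
        · refine ⟨Submonoid.closure {(a : M)}, supIrred_unit ha1 hap, ?_⟩
          simp only [Submonoid.closure_singleton_le_iff_mem]
          exact h
        · refine ⟨Submonoid.closure {(b : M)}, supIrred_unit hb1 hbp, ?_⟩
          simp only [Submonoid.closure_singleton_le_iff_mem]
          exact h
      · intro H K haH hbH haK hbK h
        have h' : H ⊓ mN N = K ⊓ mN N := h
        exact le_antisymm
          (recoverM hN htop (hXX H haH hbH) (hXX K haK hbK) (by rw [h']; exact inf_le_left))
          (recoverM hN htop (hXX K haK hbK) (hXX H haH hbH) (by rw [← h']; exact inf_le_left))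
      · intro H _ _
        exact ⟨fun h => ha (mem_mN.1 h.2), fun h => hb (mem_mN.1 h.2)⟩
      · have hcc : ∀ g : Mˣ, (g : M) ∈ Submonoid.closure {(c : M)} → g ∈ Subgroup.zpowers c := by
          intro g hg
          rw [Submonoid.mem_closure_singleton] at hg
          obtain ⟨i, hi⟩ := hg
          have : g = c ^ i := Units.ext (by rw [Units.val_pow_eq_pow_val]; exact hi.symm)
          rw [this]
          exact pow_mem (Subgroup.mem_zpowers c) i
        refine ⟨Submonoid.closure {(c : M)}, fun h => hac (hcc a h), fun h => hbc (hcc b h), ?_⟩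
        intro H _ _ h
        have h' : H ⊓ mN N = Submonoid.closure {(c : M)} := h
        have h2 : (c : M) ∈ H ⊓ mN N := by rw [h']; exact Submonoid.subset_closure rfl
        exact hc (mem_mN.1 h2.2)

/-- the submonoids of a finite group are its subgroups -/
def subgroupEquiv (G : Type u) [Group G] [Finite G] : Submonoid G ≃o Subgroup G where
  toFun H :=
    { H with
      inv_mem' := by
        intro x hx
        have h1 : x⁻¹ = x ^ (orderOf x - 1) := by
          have hpos := orderOf_pos x
          rw [inv_eq_iff_mul_eq_one, ← pow_succ']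
          rw [show orderOf x - 1 + 1 = orderOf x by omega, pow_orderOf_eq_one]
        rw [h1]
        exact pow_mem (S := H) hx _ }
  invFun K := K.toSubmonoid
  left_inv H := rfl
  right_inv K := rfl
  map_rel_iff' := Iff.rfl

/-- **The lattice of the subgroups.** -/
theorem good_subgroup (G : Type u) [Group G] [Finite G] (h : GCond G) : Good (Subgroup G) :=
  (good_submonoid (Nat.card G) G le_rfl h).congr (subgroupEquiv G)

end Pool.Agent.K35c.SG
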