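import Pool.Agent.Y396.Frankl.Final
import Pool.Agent.R636.FFam

set_option autoImplicit false

/-!
# Elements generating a join-irreducible subsemigroup
-/

namespace Pool.Agent.K35c.SG

open Pool.Agent.R636.FL

universe u

/-- the proper subsemigroups of the subsemigroup generated by `x` lie in one subsemigroup without
`x` -/
def Prim {S : Type*} [Semigroup S] (x : S) : Prop :=
  ∃ M : Subsemigroup S, x ∉ M ∧ ∀ y ∈ Subsemigroup.closure {x}, x ∈ Subsemigroup.closure {y} ∨ y ∈ M

section

variable {S : Type*} [Semigroup S]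

theorem self_mem (x : S) : x ∈ Subsemigroup.closure {x} :=
  Subsemigroup.subset_closure rfl

theorem Prim.supIrred {x : S} (h : Prim x) : SupIrred (Subsemigroup.closure {x}) := by
  obtain ⟨M, hx, hM⟩ := h
  refine ⟨?_, ?_⟩
  · intro hmin
    have h1 : Subsemigroup.closure {x} ≤ ⊥ := hmin bot_le
    exact h1 (self_mem x)
  · intro H K hHK
    have key : ∀ H : Subsemigroup S, H ≤ Subsemigroup.closure {x} → x ∉ H → H ≤ M := by
      intro H hH hxH y hy
      rcases hM y (hH hy) with h | h
      · exact absurd ((Subsemigroup.closure_singleton_le_iff_mem y H).2 hy h) hxH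
      · exact h
    by_cases h1 : x ∈ H
    · left
      exact le_antisymm (by rw [← hHK]; exact le_sup_left)
        ((Subsemigroup.closure_singleton_le_iff_mem x H).2 h1)
    by_cases h2 : x ∈ K
    · right
      exact le_antisymm (by rw [← hHK]; exact le_sup_right)
        ((Subsemigroup.closure_singleton_le_iff_mem x K).2 h2)
    exfalso
    apply hx
    have h3 : H ⊔ K ≤ M := sup_le (key H (by rw [← hHK]; exact le_sup_left) h1)
      (key K (by rw [← hHK]; exact le_sup_right) h2)
    exact h3 (by rw [hHK]; exact self_mem x)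

/-- idempotents -/
theorem prim_idem {e : S} (he : e * e = e) : Prim e := by
  refine ⟨⊥, fun h => h, fun y hy => ?_⟩
  have h1 : Subsemigroup.closure {e} ≤ (⟨{e}, by
      intro a b ha hb
      rw [Set.mem_singleton_iff] at *
      rw [ha, hb, he]⟩ : Subsemigroup S) := by
    rw [Subsemigroup.closure_singleton_le_iff_mem]
    exact rfl
  have h2 : y = e := h1 hy
  rw [h2]
  exact Or.inl (self_mem e)

/-- elements that are no product of two elements of the subsemigroup which they generate -/
theorem prim_of_not_mul {x : S} (h : ∀ a ∈ Subsemigroup.closure {x},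
    ∀ b ∈ Subsemigroup.closure {x}, a * b ≠ x) : Prim x := by
  refine ⟨⟨{y | y ∈ Subsemigroup.closure {x} ∧ y ≠ x}, ?_⟩, fun h => h.2 rfl, fun y hy => ?_⟩
  · rintro a b ⟨ha, _⟩ ⟨hb, _⟩
    exact ⟨mul_mem ha hb, h a ha b hb⟩
  · by_cases hyx : y = x
    · left; rw [hyx]; exact self_mem x
    · right; exact ⟨hy, hyx⟩

theorem comm_closure {x a b : S} (ha : a ∈ Subsemigroup.closure {x})
    (hb : b ∈ Subsemigroup.closure {x}) : a * b = b * a := by
  have h1 : ∀ y ∈ Subsemigroup.closure {x}, x * y = y * x := by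
    intro y hy
    induction hy using Subsemigroup.closure_induction with
    | mem y hy => rw [Set.mem_singleton_iff.1 hy]
    | mul y z _ _ hy hz => rw [← mul_assoc, hy, mul_assoc, hz, mul_assoc]
  induction ha using Subsemigroup.closure_induction with
  | mem a ha => rw [Set.mem_singleton_iff.1 ha]; exact h1 b hb
  | mul y z _ _ hy hz => rw [mul_assoc, hz, ← mul_assoc, hy, mul_assoc]

/-- every nonempty finite subsemigroup contains an idempotent -/
theorem exists_idem_mem [Finite S] {K : Subsemigroup S} {d : S} (hd : d ∈ K) :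
    ∃ u ∈ K, u * u = u := by
  letI : TopologicalSpace K := ⊥
  haveI : DiscreteTopology K := ⟨rfl⟩
  haveI : Nonempty K := ⟨⟨d, hd⟩⟩
  obtain ⟨u, hu⟩ := exists_idempotent_of_compact_t2_of_continuous_mul_left (M := K)
    (fun _ => continuous_of_discreteTopology)
  exact ⟨u.1, u.2, congrArg Subtype.val hu⟩

/-- an element that lies in no group is primitive; otherwise it has an idempotent -/
theorem prim_or_idem [Finite S] (x : S) : Prim x ∨
    ∃ u ∈ Subsemigroup.closure {x}, u * u = u ∧ x * u = x ∧ u * x = x := by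
  by_cases h : ∀ a ∈ Subsemigroup.closure {x}, ∀ b ∈ Subsemigroup.closure {x}, a * b ≠ x
  · exact Or.inl (prim_of_not_mul h)
  right
  push Not at h
  obtain ⟨a, ha, b, hb, hab⟩ := h
  -- `x = x d` for some `d`
  have hd : ∃ d ∈ Subsemigroup.closure {x}, x * d = x := by
    have h1 : ∀ y ∈ Subsemigroup.closure {x}, ∀ b ∈ Subsemigroup.closure {x},
        ∃ d ∈ Subsemigroup.closure {x}, x * d = y * b := by
      intro y hy
      induction hy using Subsemigroup.closure_induction with
      | mem y hy =>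
        rw [Set.mem_singleton_iff.1 hy]
        exact fun b hb => ⟨b, hb, rfl⟩
      | mul y z _ hz' hy hz =>
        intro b hb
        obtain ⟨d, hd, hd'⟩ := hy (z * b) (mul_mem hz' hb)
        exact ⟨d, hd, by rw [hd', mul_assoc]⟩
    obtain ⟨d, hd, hd'⟩ := h1 a ha b hb
    exact ⟨d, hd, by rw [hd', hab]⟩
  obtain ⟨d, hd, hxd⟩ := hd
  let K : Subsemigroup S := ⟨{z | z ∈ Subsemigroup.closure {x} ∧ x * z = x}, by
    rintro y z ⟨hy, hy'⟩ ⟨hz, hz'⟩
    exact ⟨mul_mem hy hz, by rw [← mul_assoc, hy', hz']⟩⟩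
  obtain ⟨u, hu, huu⟩ := exists_idem_mem (K := K) (d := d) ⟨hd, hxd⟩
  exact ⟨u, hu.1, huu, hu.2, by rw [comm_closure hu.1 (self_mem x)]; exact hu.2⟩

end

/-- elements of prime power order of a group -/
theorem prim_group {S : Type*} [Semigroup S] {G : Type*} [Group G] [Finite G]
    (φ : G →ₙ* S) (hφ : Function.Injective φ) {a : G} (ha : a ≠ 1) {p k : ℕ} (hp : p.Prime)
    (hk : orderOf a = p ^ k) : Prim (φ a) := by
  have hcl : ∀ y ∈ Subsemigroup.closure {φ a}, ∃ i : ℕ, y = φ (a ^ i) := by
    intro y hy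
    induction hy using Subsemigroup.closure_induction with
    | mem y hy => rw [Set.mem_singleton_iff.1 hy]; exact ⟨1, by rw [pow_one]⟩
    | mul y z _ _ hy hz =>
      obtain ⟨i, rfl⟩ := hy
      obtain ⟨j, rfl⟩ := hz
      exact ⟨i + j, by rw [← map_mul, ← pow_add]⟩
  have hpow : ∀ (g : G) (n : ℕ), φ (g ^ (n + 1)) ∈ Subsemigroup.closure {φ g} := by
    intro g n
    induction n with
    | zero => simpa using self_mem (φ g)
    | succ n ih =>
      rw [pow_succ, map_mul]
      exact mul_mem ih (self_mem _)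
  have hk1 : k ≠ 0 := by
    rintro rfl
    rw [pow_zero, orderOf_eq_one_iff] at hk
    exact ha hk
  refine ⟨⟨{y | ∃ i : ℕ, y = φ (a ^ (p * i))}, ?_⟩, ?_, ?_⟩
  · rintro y z ⟨i, rfl⟩ ⟨j, rfl⟩
    exact ⟨i + j, by rw [← map_mul, ← pow_add, mul_add]⟩
  · rintro ⟨i, hi⟩
    have h1 := hφ hi
    have h2 : a ^ 1 = a ^ (p * i) := by rw [pow_one]; exact h1
    rw [pow_inj_mod, hk] at h2
    have h3 : (1 : ℕ) ≡ p * i [MOD p ^ k] := h2
    have h4 : (1 : ℕ) ≡ p * i [MOD p] := h3.of_dvd (dvd_pow_self p hk1)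
    have h5 : p * i ≡ 0 [MOD p] := (Nat.modEq_zero_iff_dvd.2 (Dvd.intro i rfl))
    have h6 := (h4.trans h5)
    rw [Nat.modEq_zero_iff_dvd, Nat.dvd_one] at h6
    exact hp.one_lt.ne' h6
  · intro y hy
    obtain ⟨i, rfl⟩ := hcl y hy
    by_cases hpi : p ∣ i
    · obtain ⟨j, rfl⟩ := hpi
      exact Or.inr ⟨j, rfl⟩
    · left
      have hco : Nat.Coprime i (orderOf a) := by
        rw [hk]
        exact Nat.Coprime.pow_right k ((Nat.Prime.coprime_iff_not_dvd hp).2 hpi).symm
      -- `a` is a positive power of `a ^ i`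
      obtain ⟨m, hm⟩ := exists_pow_eq_self_of_coprime hco
      have h7 : φ a = φ ((a ^ i) ^ (m + orderOf a - 1 + 1)) := by
        congr 1
        have hpos := orderOf_pos a
        rw [show m + orderOf a - 1 + 1 = m + orderOf a by omega, pow_add, hm, ← pow_mul,
          mul_comm i, pow_mul, pow_orderOf_eq_one, one_pow, mul_one]
      rw [h7]
      exact hpow _ _

end Pool.Agent.K35c.SG
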